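import Pool.Agent.Q117.PL.Iso
import Pool.Agent.H476R2.Pal.Sieve2

/-!
# MP_540de1_nt: decimal palindromes with at most four prime factors, isolated among all integers
-/

set_option autoImplicit false

namespace Pool.Agent.Results.MP_540de1_nt.IsolatedAmongIntegers

open Finset Filter

/-- the decimal palindromes with `2 L + 1` digits -/
def Pal (L : ℕ) : Finset ℕ := (range (10 ^ (2 * L + 1))).filter (fun n => 10 ^ (2 * L) ≤ n ∧ (Nat.digits 10 n).reverse = Nat.digits 10 n)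

/-- all prime factors are `> z` -/
def Rough (z : ℝ) (m : ℤ) : Prop := ∀ p : ℕ, p.Prime → (p : ℤ) ∣ m → z < p

open Classical in
/-- the palindromes without prime factors `≤ z` which have another such integer at distance `≤ D` -/
noncomputable def Clustered (L : ℕ) (z D : ℝ) : Finset ℕ :=
  (Pal L).filter (fun n : ℕ => Rough z n ∧ ∃ s : ℤ, s ≠ 0 ∧ |(s : ℝ)| ≤ D ∧ Rough z (n + s))

open Classical in
/-- the palindromes with at most `4` prime factors, all `> w`, for which all the other integers at distance `≤ D` have a prime factor `≤ z` -/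
noncomputable def Isolated (L : ℕ) (w z D : ℝ) : Finset ℕ :=
  (Pal L).filter (fun n : ℕ => n.primeFactorsList.length ≤ 4 ∧ (∀ p : ℕ, p.Prime → p ∣ n → w < p) ∧
    ∀ s : ℤ, s ≠ 0 → |(s : ℝ)| ≤ D → ∃ p : ℕ, p.Prime ∧ (p : ℤ) ∣ n + s ∧ (p : ℝ) ≤ z)

theorem first (T : ℕ) (hT : 1 ≤ T) : ∃ C : ℝ, 0 < C ∧ ∃ L0 : ℕ, ∀ L : ℕ, L0 ≤ L → ∀ S : ℝ, 0 ≤ S → S ≤ L →
    ((Clustered L ((10 : ℝ) ^ ((L : ℝ) / T)) S).card : ℝ) ≤ C * (S + Real.sqrt L) * (10 : ℝ) ^ L / (L : ℝ) ^ 2 := by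
  obtain ⟨C, hC, L0, h⟩ := Pool.Agent.Q117.PL.isC 10 T (by norm_num) hT
  refine ⟨C, hC, L0, fun L hL S hS hSL => ?_⟩
  have h1 := h L hL S hS hSL
  rw [Real.sqrt_eq_rpow]
  exact_mod_cast h1

/-- the square root is small -/
theorem sqsmall {ε : ℝ} (hε : 0 < ε) : ∃ L0 : ℕ, ∀ L : ℕ, L0 ≤ L → Real.sqrt L ≤ ε * L := by
  obtain ⟨N, hN⟩ := exists_nat_ge (1 / ε ^ 2)
  refine ⟨N + 1, fun L hL => ?_⟩
  have h0 : (0 : ℝ) < L := by exact_mod_cast (show 0 < L by omega)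
  have h1 : 1 / ε ^ 2 ≤ (L : ℝ) := hN.trans (by exact_mod_cast (show N ≤ L by omega))
  rw [div_le_iff₀ (by positivity)] at h1
  rw [Real.sqrt_le_left (by positivity)]
  nlinarith

theorem second (T : ℕ) (hT : 14 ≤ T) : ∃ c : ℝ, 0 < c ∧ ∃ ν : ℝ, 0 < ν ∧ ∃ L0 : ℕ, ∀ L : ℕ, L0 ≤ L →
    c * (10 : ℝ) ^ L / L ≤ ((Isolated L ((10 : ℝ) ^ ((L : ℝ) / 14)) ((10 : ℝ) ^ ((L : ℝ) / T)) (ν * L)).card : ℝ) := by
  classical
  obtain ⟨C, hC, L1, h1⟩ := first T (by omega)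
  obtain ⟨c0, hc0, h2⟩ := Pool.Agent.H476R2.Pal.final4
  obtain ⟨L2, h2⟩ := eventually_atTop.1 h2
  obtain ⟨L3, h3⟩ := sqsmall (show 0 < c0 / (4 * C) by positivity)
  obtain ⟨ν, hν⟩ : ∃ ν : ℝ, ν = min 1 (c0 / (4 * C)) := ⟨_, rfl⟩
  have hν0 : 0 < ν := by rw [hν]; exact lt_min one_pos (by positivity)
  have hν1 : ν ≤ 1 := by rw [hν]; exact min_le_left _ _
  have hν2 : ν ≤ c0 / (4 * C) := by rw [hν]; exact min_le_right _ _
  refine ⟨c0 / 2, by positivity, ν, hν0, max (max L1 L2) (max L3 1), fun L hL => ?_⟩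
  have hL1 : L1 ≤ L := (le_max_left _ _).trans ((le_max_left _ _).trans hL)
  have hL2 : L2 ≤ L := (le_max_right _ _).trans ((le_max_left _ _).trans hL)
  have hL3 : L3 ≤ L := (le_max_left _ _).trans ((le_max_right _ _).trans hL)
  have hL4 : 1 ≤ L := (le_max_right _ _).trans ((le_max_right _ _).trans hL)
  have hL0 : (0 : ℝ) < L := by exact_mod_cast (show 0 < L by omega)
  have h4 := h2 L hL2
  have h5 := h1 L hL1 (ν * L) (by positivity) (by nlinarith)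
  obtain ⟨z, hz⟩ : ∃ z : ℝ, z = (10 : ℝ) ^ ((L : ℝ) / T) := ⟨_, rfl⟩
  rw [← hz] at h5
  rw [← hz]
  have hz14 : z ≤ (10 : ℝ) ^ ((L : ℝ) / 14) := by
    rw [hz]
    apply Real.rpow_le_rpow_of_exponent_le (by norm_num)
    have hT' : (14 : ℝ) ≤ T := by exact_mod_cast hT
    exact div_le_div_of_nonneg_left hL0.le (by norm_num) hT'
  have hsub : (range (10 ^ (2 * L + 1))).filter (fun n => 10 ^ (2 * L) ≤ n ∧
      (Nat.digits 10 n).reverse = Nat.digits 10 n ∧ n.primeFactorsList.length ≤ 4 ∧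
      ∀ p ∈ n.primeFactorsList, (10 : ℝ) ^ ((L : ℝ) / 14) < p) ⊆
      Isolated L ((10 : ℝ) ^ ((L : ℝ) / 14)) z (ν * L) ∪ Clustered L z (ν * L) := by
    intro n hn
    rw [mem_filter, mem_range] at hn
    obtain ⟨hn1, hn2, hn3, hn4, hn5⟩ := hn
    have hP : n ∈ Pal L := by
      rw [Pal, mem_filter, mem_range]
      exact ⟨hn1, hn2, hn3⟩
    have hn0 : n ≠ 0 := by
      have : 0 < 10 ^ (2 * L) := pow_pos (by norm_num) _
      omega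
    have hpf : ∀ p : ℕ, p.Prime → p ∣ n → (10 : ℝ) ^ ((L : ℝ) / 14) < p := fun p hp hd =>
      hn5 p ((Nat.mem_primeFactorsList hn0).2 ⟨hp, hd⟩)
    rw [mem_union]
    by_cases hI : ∀ s : ℤ, s ≠ 0 → |(s : ℝ)| ≤ ν * L → ∃ p : ℕ, p.Prime ∧ (p : ℤ) ∣ n + s ∧ (p : ℝ) ≤ z
    · left
      rw [Isolated, mem_filter]
      exact ⟨hP, hn4, hpf, hI⟩
    · right
      push Not at hI
      obtain ⟨s, hn7, hn8, hn9⟩ := hI
      rw [Clustered, mem_filter]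
      refine ⟨hP, fun p hp hd => ?_, s, hn7, hn8, hn9⟩
      exact hz14.trans_lt (hpf p hp (by exact_mod_cast hd))
  have h6 : (((range (10 ^ (2 * L + 1))).filter (fun n => 10 ^ (2 * L) ≤ n ∧
      (Nat.digits 10 n).reverse = Nat.digits 10 n ∧ n.primeFactorsList.length ≤ 4 ∧
      ∀ p ∈ n.primeFactorsList, (10 : ℝ) ^ ((L : ℝ) / 14) < p)).card : ℝ) ≤
      ((Isolated L ((10 : ℝ) ^ ((L : ℝ) / 14)) z (ν * L)).card : ℝ) + ((Clustered L z (ν * L)).card : ℝ) := by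
    rw [← Nat.cast_add]
    exact (Nat.cast_le (α := ℝ)).2 ((card_le_card hsub).trans (card_union_le _ _))
  have h7 : c0 * (10 : ℝ) ^ L / L ≤ ((Isolated L ((10 : ℝ) ^ ((L : ℝ) / 14)) z (ν * L)).card : ℝ) + ((Clustered L z (ν * L)).card : ℝ) := by
    refine le_trans (le_trans h4 (le_of_eq ?_)) h6
    congr
  have h8 : C * (ν * L + Real.sqrt L) * (10 : ℝ) ^ L / (L : ℝ) ^ 2 ≤ c0 / 2 * (10 : ℝ) ^ L / L := by
    have h9 := h3 L hL3
    have h12 : C * (ν * L + Real.sqrt L) ≤ c0 / 2 * L := by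
      have h10 : ν * L + Real.sqrt L ≤ c0 / (4 * C) * L + c0 / (4 * C) * L := by
        gcongr
      calc C * (ν * L + Real.sqrt L) ≤ C * (c0 / (4 * C) * L + c0 / (4 * C) * L) := mul_le_mul_of_nonneg_left h10 hC.le
        _ = c0 / 2 * L := by field_simp; ring
    calc C * (ν * L + Real.sqrt L) * (10 : ℝ) ^ L / (L : ℝ) ^ 2 ≤ (c0 / 2 * L) * (10 : ℝ) ^ L / (L : ℝ) ^ 2 := by gcongr
      _ = c0 / 2 * (10 : ℝ) ^ L / L := by
        field_simp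
  have e13 : c0 * (10 : ℝ) ^ L / L = c0 / 2 * (10 : ℝ) ^ L / L + c0 / 2 * (10 : ℝ) ^ L / L := by ring
  linarith only [h5, h7, h8, e13]

theorem result : (∀ T : ℕ, 1 ≤ T → ∃ C : ℝ, 0 < C ∧ ∃ L0 : ℕ, ∀ L : ℕ, L0 ≤ L → ∀ S : ℝ, 0 ≤ S → S ≤ L →
      ((Clustered L ((10 : ℝ) ^ ((L : ℝ) / T)) S).card : ℝ) ≤ C * (S + Real.sqrt L) * (10 : ℝ) ^ L / (L : ℝ) ^ 2) ∧
    ∀ T : ℕ, 14 ≤ T → ∃ c : ℝ, 0 < c ∧ ∃ ν : ℝ, 0 < ν ∧ ∃ L0 : ℕ, ∀ L : ℕ, L0 ≤ L →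
      c * (10 : ℝ) ^ L / L ≤ ((Isolated L ((10 : ℝ) ^ ((L : ℝ) / 14)) ((10 : ℝ) ^ ((L : ℝ) / T)) (ν * L)).card : ℝ) :=
  ⟨first, second⟩

end Pool.Agent.Results.MP_540de1_nt.IsolatedAmongIntegers
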