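import Pool.Agent.Q117.PL.All

/-!
# MP_540de1_nt: decimal palindromes without small prime factors, with prescribed middle blocks
-/

set_option autoImplicit false

namespace Pool.Agent.Results.MP_540de1_nt.PrescribedMiddleBlocks

open Finset
open Pool.Agent.Q117.LF (Ro)

/-- the weight of the digit at the distance `c` from the middle of a palindrome with `2 L + 1` digits -/
def wt (L c : ℕ) : ℕ := if c = 0 then 10 ^ L else 10 ^ (L + c) + 10 ^ (L - c)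

/-- the contribution of the middle block `m`, with the digits at the distances `c < K` -/
def mid (L K m : ℕ) : ℕ := ∑ c ∈ range K, (m / 10 ^ c % 10) * wt L c

/-- the contribution of the outer digits `o`, at the distances `K, .., L - 1` -/
def outer (L K o : ℕ) : ℕ := ∑ c ∈ range (L - K), (o / 10 ^ c % 10) * wt L (K + c)

/-- the palindrome with `2 L + 1` digits, leading digit `1`, outer digits `o`, middle block `m` -/
def pal (L K o m : ℕ) : ℕ := 1 * (10 ^ (2 * L) + 1) + outer L K o + mid L K m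

/-- the middle blocks in `M` as integers -/
def blocks (L K : ℕ) (M : Finset ℕ) : Finset ℤ := M.image (fun m => (mid L K m : ℤ))

/-- for every prime `p` not dividing `20` some translate of the set contains no multiple of `p` -/
def Admissible (V : Finset ℤ) : Prop := ∀ p : ℕ, p.Prime → ¬ p ∣ 2 * 10 → ∃ r : ℤ, ∀ v ∈ V, ¬ (p : ℤ) ∣ r + v

/-- the number of the classes modulo `p` met by `V` -/
noncomputable def omega (V : Finset ℤ) (p : ℕ) : ℕ := (V.image (fun v : ℤ => v % (p : ℤ))).card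

/-- the product of `1 - omega / p` over the primes `p ≤ y` that do not divide `20` -/
noncomputable def dens (y : ℕ) (V : Finset ℤ) : ℝ := ∏ p ∈ (Icc 1 y).filter (fun p : ℕ => p.Prime ∧ ¬ p ∣ 2 * 10), (1 - (omega V p : ℝ) / p)

open Classical in
/-- the outer digits for which all the palindromes with middle block in `M` have no prime factor `≤ z`, and those with another middle block `m'`, `|m' - m| ≤ D` for some `m ∈ M`, have one -/
noncomputable def Outers (L K : ℕ) (M : Finset ℕ) (z D : ℝ) : Finset ℕ :=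
  (range (10 ^ (L - K))).filter (fun o : ℕ => (∀ m ∈ M, Ro z (pal L K o m)) ∧
    ∀ m' < 10 ^ K, m' ∉ M → (∃ m ∈ M, |((m' : ℝ) - m)| ≤ D) → ¬ Ro z (pal L K o m'))

theorem sum_dig (l n : ℕ) : ∑ c ∈ range n, (l / 10 ^ c % 10) * 10 ^ c = l % 10 ^ n := by
  induction n with
  | zero => simp [Nat.mod_one]
  | succ n ih => rw [Finset.sum_range_succ, ih, Nat.mod_pow_succ, mul_comm (10 ^ n)]

theorem pl_low (L l : ℕ) (h : l < 10 ^ (L + 1)) : l * 10 ^ L ≤ Pool.Agent.Q117.PL.Pl 10 L l := by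
  unfold Pool.Agent.Q117.PL.Pl
  have h1 : l * 10 ^ L = ∑ c ∈ range (L + 1), (l / 10 ^ c % 10) * 10 ^ c * 10 ^ L := by
    rw [← Finset.sum_mul, sum_dig, Nat.mod_eq_of_lt h]
  rw [h1]
  refine Finset.sum_le_sum (fun c _ => ?_)
  rw [mul_assoc]
  refine Nat.mul_le_mul_left _ ?_
  unfold Pool.Agent.H39R3.PB.fr
  split_ifs with h0
  · subst h0; simp
  · rw [pow_add, mul_comm (10 ^ L)]; exact Nat.le_add_right _ _

theorem pal_eq (L K o m : ℕ) : pal L K o m = Pool.Agent.Q117.PL.Pv 10 L K 1 o m := rfl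

theorem first (pd : Pool.Agent.Q117.PL.PDc) (L K o m : ℕ) (hL : 1 ≤ L) (hK : K ≤ L) (ho : o < 10 ^ (L - K)) (hm : m < 10 ^ K) :
    10 ^ (2 * L) ≤ pal L K o m ∧ pal L K o m < 2 * 10 ^ (2 * L) ∧ (Nat.digits 10 (pal L K o m)).reverse = Nat.digits 10 (pal L K o m) ∧
        pal L K o m / 10 ^ L = 10 ^ L + o * 10 ^ K + m := by
  obtain ⟨h1, h2, h3, h4⟩ := pd 10 L (by norm_num) hL
  have hl : o * 10 ^ K + m < 10 ^ L := by
    have : 10 ^ L = 10 ^ (L - K) * 10 ^ K := by rw [← pow_add]; congr 1; omega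
    rw [this]
    calc o * 10 ^ K + m < o * 10 ^ K + 10 ^ K := by omega
      _ = (o + 1) * 10 ^ K := by ring
      _ ≤ 10 ^ (L - K) * 10 ^ K := Nat.mul_le_mul_right _ ho
  have hlb : 1 * 10 ^ L + o * 10 ^ K + m < 10 ^ (L + 1) := by
    rw [pow_succ]; omega
  have e := h4 K 1 o m hK (by norm_num) ho hm
  have hmem : pal L K o m ∈ Pool.Agent.Q117.PL.Pal 10 L := by
    rw [h1]
    exact ⟨1 * 10 ^ L + o * 10 ^ K + m, by omega, hlb, by rw [e, pal_eq]⟩
  unfold Pool.Agent.Q117.PL.Pal at hmem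
  rw [Finset.mem_filter] at hmem
  have hlow := pl_low L _ hlb
  have hup := h2 0 (1 * 10 ^ L + o * 10 ^ K + m) (by positivity) hlb
  have h0 : Pool.Agent.Q117.PL.Pl 10 L 0 = 0 := by
    unfold Pool.Agent.Q117.PL.Pl; simp
  rw [h0, e, abs_lt] at hup
  rw [e] at hlow
  obtain ⟨hu1, hu2⟩ := hup
  have hup' : Pool.Agent.Q117.PL.Pv 10 L K 1 o m < (1 * 10 ^ L + o * 10 ^ K + m + 1) * 10 ^ L := by
    have : ((Pool.Agent.Q117.PL.Pv 10 L K 1 o m : ℕ) : ℤ) < (((1 * 10 ^ L + o * 10 ^ K + m + 1) * 10 ^ L : ℕ) : ℤ) := by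
      push_cast at hu1 hu2 ⊢
      first
        | linarith
        | nlinarith
    exact_mod_cast this
  refine ⟨hmem.2.1, ?_, hmem.2.2, ?_⟩
  · rw [pal_eq]
    refine lt_of_lt_of_le hup' ?_
    have : 1 * 10 ^ L + o * 10 ^ K + m + 1 ≤ 2 * 10 ^ L := by omega
    calc (1 * 10 ^ L + o * 10 ^ K + m + 1) * 10 ^ L ≤ (2 * 10 ^ L) * 10 ^ L := Nat.mul_le_mul_right _ this
      _ = 2 * 10 ^ (2 * L) := by rw [mul_assoc, ← pow_add, ← two_mul L]
  · rw [pal_eq]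
    have := Nat.div_eq_of_lt_le (m := Pool.Agent.Q117.PL.Pv 10 L K 1 o m) (n := 10 ^ L) (k := 1 * 10 ^ L + o * 10 ^ K + m) hlow hup'
    rw [this, one_mul]

theorem result : (∀ L K o m : ℕ, 1 ≤ L → K ≤ L → o < 10 ^ (L - K) → m < 10 ^ K →
      10 ^ (2 * L) ≤ pal L K o m ∧ pal L K o m < 2 * 10 ^ (2 * L) ∧ (Nat.digits 10 (pal L K o m)).reverse = Nat.digits 10 (pal L K o m) ∧
        pal L K o m / 10 ^ L = 10 ^ L + o * 10 ^ K + m) ∧
    ∀ r : ℕ, ∃ t : ℕ, 1 ≤ t ∧ ∀ T : ℕ, t ≤ T → ∃ c : ℝ, 0 < c ∧ ∃ ν : ℝ, 0 < ν ∧ ∀ U : ℝ, 0 < U → ∃ L0 : ℕ, ∀ L : ℕ, L0 ≤ L → ∀ K : ℕ, 1 ≤ K → (K : ℝ) ≤ U * Real.log L →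
      ∀ M : Finset ℕ, M.Nonempty → M.card ≤ r → (∀ m ∈ M, m < 10 ^ K) → Admissible (blocks L K M) →
        c * ((10 : ℝ) ^ (L - K) * dens (10 ^ L) (blocks L K M)) ≤ ((Outers L K M ((10 : ℝ) ^ ((L : ℝ) / T)) (ν * L)).card : ℝ) := by
  refine ⟨first Pool.Agent.Q117.PL.pd, ?_⟩
  intro r
  obtain ⟨t, ht, h⟩ := Pool.Agent.Q117.PL.ptC 10 (by norm_num) r
  refine ⟨t, ht, fun T hT => ?_⟩
  obtain ⟨c, hc, ν, hν, h⟩ := h T hT
  refine ⟨c, hc, ν, hν, fun U hU => ?_⟩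
  obtain ⟨L0, h⟩ := h U hU
  refine ⟨L0, fun L hL K hK1 hK2 M hM1 hM2 hM3 hM4 => ?_⟩
  have := h L hL K hK1 hK2 M hM1 hM2 (fun m hm => ⟨hM3 m hm, Or.inl (by decide)⟩) hM4
  exact_mod_cast this

end Pool.Agent.Results.MP_540de1_nt.PrescribedMiddleBlocks
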