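import Pool.Agent.Q253.Pal.Uni
import Pool.Agent.W139.PX.E3

/-!
# Random decimal palindromes: the expected probability of primes, or prime factors from one very thin set

The digits of the palindromes are independent and have the law of `i + j`, `i` uniform in `{0, ..., 4}` and `j` uniform in `{0, ..., 5}`
(probabilities `1, 2, 3, 4, 5, 5, 4, 3, 2, 1` over `30` for the digits `0, ..., 9`).

Libraries (starting files): level of distribution and weighted sieve for palindromes `W139.PX`, `W89.Sv`, `W89.PW`; Mertens `W378.DC.MP`.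
-/

set_option autoImplicit false

namespace Pool.Agent.Results.MP_540de1_nt.PrimesOrThinFactors

open Finset Filter
open Pool.Agent.Q253.Pal (Tm RichS pal_seq)
open Pool.Agent.W89.PW (pv PlP BVW BigW PtW m4 HH almost0 kappa_lt_one)
open Pool.Agent.W139.PX (kap9 dig2)

/-- the palindrome with `2 N + 3` decimal digits, first, middle and last digit `1`, whose other digits are the sums of the pairs -/
def pal (N : ℕ) (m : Fin N → Fin 5 × Fin 6) : ℕ :=
  10 ^ (2 * N + 2) + 10 ^ (N + 1) + 1 + ∑ c : Fin N, (((m c).1 : ℕ) + ((m c).2 : ℕ)) * (10 ^ (N + c + 2) + 10 ^ (N - c))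

open Classical in
/-- the probability of `P` for the random palindrome -/
noncomputable def prob (N : ℕ) (P : ℕ → Prop) : ℝ :=
  (((univ : Finset (Fin N → Fin 5 × Fin 6)).filter (fun m => P (pal N m))).card : ℝ) / 30 ^ N

/-- `N` is `q` times a number `n ≥ 2` with at most `s` prime factors (with multiplicity), all `≥ q` -/
def Times (q s N : ℕ) : Prop := ∃ n : ℕ, 2 ≤ n ∧ N = q * n ∧ n.primeFactorsList.length ≤ s ∧ ∀ p : ℕ, p.Prime → p ∣ n → q ≤ p

lemma pal_eq (N : ℕ) (m : Fin N → Fin 5 × Fin 6) : pal N m = pv 10 5 6 N m := rfl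

/-- the data -/
lemma data : BVW 10 5 6 (183 / 250) ∧ ∃ c : ℝ, 0 < c ∧ ∀ᶠ L : ℕ in atTop, ∃ G : Finset (Fin L → Fin 5 × Fin 6),
      c * (((5 : ℕ) : ℝ) * (6 : ℕ)) ^ L / L ≤ G.card ∧ ∀ m ∈ G, PlP 10 3 (183 / 250) L (pv 10 5 6 L m) := by
  have hm4 : ((10 : ℕ) : ℝ) * m4 5 6 < 1 := by
    have h := Pool.Agent.W22.PWM4.main 10 (by norm_num)
    norm_num at h ⊢
    linarith
  have hκ : ((10 : ℕ) : ℝ) ^ (183 / 250 : ℝ) * HH 5 6 < 1 := kap9 (b := 10) (by norm_num) (by norm_num) (by norm_num)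
  have hκ1 : (183 / 250 : ℝ) < 1 := by norm_num
  have hBig : BigW 10 5 6 (183 / 250) := Pool.Agent.W822.PWBig.main Pool.Agent.W880.PW.mainG Pool.Agent.W342.PW2.mainLS
    10 5 6 (by norm_num) (by norm_num) (by norm_num) (by norm_num) hm4 (183 / 250) (by norm_num) hκ
  have hPt : PtW 10 5 6 := Pool.Agent.W571.PW.Pt.main 10 5 6 (by omega) (by omega) (by omega) (by norm_num)
  have hBV : BVW 10 5 6 (183 / 250) := Pool.Agent.W261.PWBV.main 10 5 6 (by norm_num) (by omega) (by omega) (by norm_num) hPt (183 / 250)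
    (by norm_num) hκ1 hBig
  exact ⟨hBV, almost0 (b := 10) (s := 5) (t := 6) (r := 3) (κ := 183 / 250) (lam := 84 / 100) (by norm_num) (by norm_num) (by norm_num)
    (by norm_num) (by norm_num) hκ hm4 (by norm_num) (by norm_num) (by norm_num) (by norm_num)⟩

open Classical in
/-- counting -/
lemma to_prob {L : ℕ} (κ : ℝ) (P R : ℕ → Prop) (h : ∀ n, PlP 10 3 κ L n → P n → R n) :
    (((univ : Finset (Fin L → Fin 5 × Fin 6)).filter (fun m => PlP 10 3 κ L (pv 10 5 6 L m) ∧ P (pv 10 5 6 L m))).card : ℝ) / 30 ^ L ≤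
      prob L R := by
  unfold prob
  apply div_le_div_of_nonneg_right _ (by positivity)
  apply Nat.cast_le.2
  apply card_le_card
  intro m hm
  rw [mem_filter] at hm ⊢
  exact ⟨hm.1, pal_eq L m ▸ h _ hm.2.1 hm.2.2⟩

/-- **Primes, two large prime factors, or one very thin set.** All `pal N m` are palindromes with `2 N + 3` decimal digits. For every
`η > 0` there are `C, δ, ρ > 0` and a set `Q` of primes with at most `C (log log x) ^ 2` elements up to `x` (`x ≥ 16`) such that for all large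
`N` the random palindrome with `2 N + 3` digits is (1) prime with probability at least `δ / N`, or (2) with probability at least `δ / N`
the product of exactly two primes, both `> 10 ^ ((0.732 - η) N)`, or (3) there is a finite set `T` of primes `q`,
`10 ^ (N/9) ≤ q ≤ 10 ^ (0.732 N)`, with `∑ 1/q ≥ ρ`, such that for each `q ∈ T` it is with probability at least `δ / (N q)` equal to `q`
times a number with one or two prime factors, both `≥ q`; and `T` contains an element of `Q`. -/
theorem result : (∀ (N : ℕ) (m : Fin N → Fin 5 × Fin 6), 10 ^ (2 * N + 2) ≤ pal N m ∧ pal N m < 10 ^ (2 * N + 3) ∧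
      (Nat.digits 10 (pal N m)).reverse = Nat.digits 10 (pal N m)) ∧
    ∀ η : ℝ, 0 < η → ∃ C δ ρ : ℝ, 0 < C ∧ 0 < δ ∧ 0 < ρ ∧ ∃ Q : Set ℕ, (∀ q ∈ Q, q.Prime) ∧
    (∀ x : ℕ, 16 ≤ x → {q ∈ Q | q ≤ x}.Finite ∧ ({q ∈ Q | q ≤ x}.ncard : ℝ) ≤ C * Real.log (Real.log x) ^ 2) ∧
    ∀ᶠ N : ℕ in atTop,
      δ / N ≤ prob N (fun n => n.Prime) ∨
      δ / N ≤ prob N (fun n => n.primeFactorsList.length = 2 ∧ ∀ p : ℕ, p.Prime → p ∣ n → (10 : ℝ) ^ ((183 / 250 - η) * N) < p) ∨
      ∃ T : Finset ℕ, (∀ q ∈ T, q.Prime ∧ (10 : ℝ) ^ ((N : ℝ) / 9) ≤ q ∧ (q : ℝ) ≤ (10 : ℝ) ^ (183 / 250 * (N : ℝ)) ∧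
          δ / (N * q) ≤ prob N (Times q 2)) ∧
        ρ ≤ ∑ q ∈ T, (1 : ℝ) / q ∧ ∃ q ∈ T, q ∈ Q := by
  classical
  refine ⟨?_, ?_⟩
  · intro N m
    obtain ⟨h1, h2, h3, -⟩ := (dig2 (s := 5) (t := 6) (b := 10) N (by norm_num) (by norm_num)).1 m
    rw [pal_eq]
    exact ⟨h1.le, h2, h3⟩
  intro η hη
  obtain ⟨hBV, c, hc, hG⟩ := data
  obtain ⟨η', hη'⟩ : ∃ η', η' = min η (1 / 20) := ⟨_, rfl⟩
  have hη0 : 0 < η' := by rw [hη']; positivity
  have hη1 : η' ≤ η := by rw [hη']; exact min_le_left _ _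
  have hη2 : η' ≤ 1 / 20 := by rw [hη']; exact min_le_right _ _
  obtain ⟨δ, hδ, ρ, hρ, C, hC, Q, hQ, hQc, h⟩ := pal_seq (b := 10) (s := 5) (t := 6) (r := 3) (by norm_num) (by norm_num) (by norm_num)
    (κ := 183 / 250) (by norm_num) (by norm_num) hBV hc hG η' hη0
  refine ⟨C, δ, ρ, hC, hδ, hρ, Q, hQ, hQc, ?_⟩
  filter_upwards [h, eventually_ge_atTop 100] with N h1 hN
  have hN0 : (0 : ℝ) < N := by exact_mod_cast (by omega : 0 < N)
  have hNr : (100 : ℝ) ≤ N := by exact_mod_cast hN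
  have h30 : (((5 : ℕ) : ℝ) * ((6 : ℕ) : ℝ)) = 30 := by norm_num
  have h10 : ((10 : ℕ) : ℝ) = 10 := by norm_num
  have hp30 : (0 : ℝ) < 30 ^ N := by positivity
  rw [h30, h10] at h1
  have hsc : ∀ y : ℝ, δ * 30 ^ N / N ≤ y → δ / N ≤ y / 30 ^ N := by
    intro y hy
    rw [le_div_iff₀ hp30]
    refine le_trans (le_of_eq ?_) hy
    ring
  rcases h1 with (h1 | h1) | ⟨h1, q₀, hq₀, hq₀Q⟩
  · left
    have h5 := to_prob (L := N) (183 / 250) (fun n => n.Prime) (fun n => n.Prime) (fun n _ h => h)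
    refine (hsc _ h1).trans (le_trans (le_of_eq ?_) h5)
    congr!
  · right; left
    have h5 := to_prob (L := N) (183 / 250) (fun n => ¬ n.Prime ∧ ∀ p : ℕ, p.Prime → p ∣ n → (10 : ℝ) ^ ((183 / 250 - η') * (N : ℝ)) < p)
      (fun n => n.primeFactorsList.length = 2 ∧ ∀ p : ℕ, p.Prime → p ∣ n → (10 : ℝ) ^ ((183 / 250 - η) * (N : ℝ)) < p) ?_
    · refine (hsc _ h1).trans (le_trans (le_of_eq ?_) h5)
      congr!
    rintro M ⟨p1, p2, p3, p4, p5⟩ ⟨p6, p7⟩
    have hM2 : 2 ≤ M := by
      refine le_trans ?_ p1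
      calc 2 ≤ 10 ^ 1 := by norm_num
        _ ≤ _ := Nat.pow_le_pow_right (by omega) (by omega)
    refine ⟨?_, ?_⟩
    · rcases hl : M.primeFactorsList with _ | ⟨x, _ | ⟨y, _ | ⟨w, l⟩⟩⟩
      · have := (Nat.primeFactorsList_eq_nil M).1 hl
        omega
      · exfalso
        have h3 := Nat.prod_primeFactorsList (show M ≠ 0 by omega)
        rw [hl, List.prod_singleton] at h3
        apply p6
        rw [← h3]
        exact Nat.prime_of_mem_primeFactorsList (n := M) (by rw [hl]; simp)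
      · simp
      · exfalso
        rw [hl] at p4
        simp only [List.length_cons] at p4
        have hl0 : l = [] := by
          rw [← List.length_eq_zero_iff]
          omega
        subst hl0
        have h3 := Nat.prod_primeFactorsList (show M ≠ 0 by omega)
        rw [hl] at h3
        simp only [List.prod_cons, List.prod_nil, mul_one] at h3
        have hmem : ∀ p ∈ M.primeFactorsList, (10 : ℝ) ^ ((183 / 250 - 1 / 20) * (N : ℝ)) < p := by
          intro p hp
          obtain ⟨a1, a2⟩ := (Nat.mem_primeFactorsList (by omega)).1 hp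
          refine lt_of_le_of_lt ?_ (p7 p a1 a2)
          apply Real.rpow_le_rpow_of_exponent_le (by norm_num)
          nlinarith
        have b1 := hmem x (by rw [hl]; simp)
        have b2 := hmem y (by rw [hl]; simp)
        have b3 := hmem w (by rw [hl]; simp)
        obtain ⟨A, hA⟩ : ∃ A : ℝ, A = (10 : ℝ) ^ ((183 / 250 - 1 / 20) * (N : ℝ)) := ⟨_, rfl⟩
        have hA0 : 0 < A := by rw [hA]; positivity
        rw [← hA] at b1 b2 b3
        have b4 : A * (A * A) < M := by
          have b5 : A * (A * A) < (x : ℝ) * (y * w) := by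
            apply mul_lt_mul'' b1 (mul_lt_mul'' b2 b3 hA0.le hA0.le) hA0.le (by positivity)
          rw [← h3]
          push_cast
          exact b5
        have b6 : (M : ℝ) < 10 ^ (2 * N + 3) := by exact_mod_cast p2
        have b7 : (10 : ℝ) ^ (2 * N + 3) ≤ A * (A * A) := by
          rw [hA, ← Real.rpow_add (by norm_num), ← Real.rpow_add (by norm_num), ← Real.rpow_natCast]
          apply Real.rpow_le_rpow_of_exponent_le (by norm_num)
          push_cast
          linarith
        linarith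
    · intro p hp hd
      refine lt_of_le_of_lt ?_ (p7 p hp hd)
      apply Real.rpow_le_rpow_of_exponent_le (by norm_num)
      nlinarith
  · right; right
    refine ⟨_, ?_, h1, q₀, hq₀, hq₀Q⟩
    intro q hq
    unfold RichS at hq
    rw [mem_filter, h10] at hq
    obtain ⟨-, q1, q2, q3, q4⟩ := hq
    have hq0 : (0 : ℝ) < q := by exact_mod_cast q1.pos
    refine ⟨q1, ?_, ?_, ?_⟩
    · refine le_trans (Real.rpow_le_rpow_of_exponent_le (by norm_num) ?_) q2
      linarith
    · refine q3.trans (Real.rpow_le_rpow_of_exponent_le (by norm_num) ?_)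
      nlinarith
    · have h5 := to_prob (L := N) (183 / 250) (fun M => Tm q (3 - 1) M) (Times q 2) (fun M _ h => by unfold Times; unfold Tm at h; simpa using h)
      refine le_trans ?_ h5
      rw [le_div_iff₀ hp30]
      refine le_trans (le_of_eq ?_) q4
      ring

end Pool.Agent.Results.MP_540de1_nt.PrimesOrThinFactors
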