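import Pool.Agent.Q217.SG.PalinIrr

/-!
# Palindromes with three nonzero digits: Euclid's lemma for sparse integers

Let `N = c 10 ^ (2 n) + d 10 ^ n + c`, the palindrome with the digits `c`, `d`, `c` and zeros between
them.

(0) If `N` is prime then `c ∈ {1, 3, 7, 9}`, `c`, `d` are coprime, `3 ∤ 2 c + d`, `(c, d) ≠ (1, 2)`, for
odd `n` also `(c, d) ≠ (9, 8)` (`9 T ^ 2 + 8 T + 9` is reducible for `T = 10 S ^ 2`) and for even `n`
also `(c, d) ≠ (9, 2)` (`9 T ^ 2 + 2 T + 9` is reducible for `T = S ^ 2`), or `(c, d) = (1, 0)` and `n` is a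
power of `2`.  We call the triples with these conditions and `(c, d) ≠ (1, 0)` admissible.

(1) Every admissible palindrome has the property of primes of Euclid's lemma for integers with few
decimal digits: let `x`, `y`, `q` be sums of `k₁`, `k₂`, `l` terms `a 10 ^ α` with sums `S₁`, `S₂`, `S₃` of
the `|a|`, and `K = k₁ + k₂ + 2 l`, `(K + 1) 2 ^ K ⌊log_10 (9 S₁ S₂ + 243 S₃)⌋ < n`. If `x y = q N` then
`N ∣ x` or `N ∣ y`.

(2) If `N = x y` is admissible, `x`, `y` have `k₁`, `k₂` nonzero decimal digits `± 1`, `k = k₁ + k₂` and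
`(k + 3) ^ 2 2 ^ (k + 2) ≤ n`, then `x = ± 1` or `y = ± 1`.
-/

set_option autoImplicit false

namespace Pool.Agent.Results.MP_540de1_nt.ThreeDigitPalindromes

open Finset Q217.SG Q217.SG.Palin

/-- The palindrome `c 0 ... 0 d 0 ... 0 c`. -/
def pal (c d n : ℕ) : ℕ := c * 10 ^ (2 * n) + d * 10 ^ n + c

/-- The admissible triples. -/
structure Admissible (c d n : ℕ) : Prop where
  ends : c = 1 ∨ c = 3 ∨ c = 7 ∨ c = 9
  middle : d ≤ 9
  coprime : Nat.Coprime c d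
  sum : ¬ 3 ∣ 2 * c + d
  not_zero : ¬ (c = 1 ∧ d = 0)
  not_square : ¬ (c = 1 ∧ d = 2)
  not_odd : ¬ (c = 9 ∧ d = 8 ∧ Odd n)
  not_even : ¬ (c = 9 ∧ d = 2 ∧ Even n)

/-- The value `∑ a_i 10 ^ α_i`. -/
def value {k : ℕ} (a : Fin k → ℤ) (α : Fin k → ℕ) : ℤ := ∑ i, a i * 10 ^ α i

/-- `x` is a sum of `k` terms `± 10 ^ i`. -/
def Sparse (k : ℕ) (x : ℤ) : Prop :=
  ∃ (a : Fin k → ℤ) (α : Fin k → ℕ), (∀ i, a i = 1 ∨ a i = -1) ∧ x = value a α

/-! ### Prime palindromes are admissible -/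

theorem pal_lt {c d n : ℕ} (hc : 1 ≤ c) (hn : 1 ≤ n) : 101 ≤ pal c d n := by
  have h1 : 10 ^ 2 ≤ 10 ^ (2 * n) := Nat.pow_le_pow_right (by norm_num) (by omega)
  have h2 : 1 * 10 ^ (2 * n) ≤ c * 10 ^ (2 * n) := Nat.mul_le_mul_right _ hc
  simp only [pal]
  omega

theorem not_dvd_of_prime {c d n r : ℕ} (hc : 1 ≤ c) (hn : 1 ≤ n) (hp : (pal c d n).Prime)
    (hr : r ≠ 1) (hr2 : r ≤ 100) : ¬ r ∣ pal c d n := by
  intro h
  have h1 := pal_lt (d := d) hc hn
  rcases (Nat.dvd_prime hp).1 h with h2 | h2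
  · exact hr h2
  · omega

theorem prime_cases {c d n : ℕ} (hc : 1 ≤ c) (hc9 : c ≤ 9) (hd : d ≤ 9) (hn : 1 ≤ n)
    (hp : (pal c d n).Prime) : Admissible c d n ∨ (c = 1 ∧ d = 0 ∧ ∃ m, n = 2 ^ m) := by
  have hten : ∀ m : ℕ, 1 ≤ m → ∃ s, 10 ^ m = 10 * s := fun m hm =>
    ⟨10 ^ (m - 1), by rw [← pow_succ']; congr 1; omega⟩
  obtain ⟨s, hs⟩ := hten n hn
  obtain ⟨s', hs'⟩ := hten (2 * n) (by omega)
  have h2 : ¬ 2 ∣ c := by
    intro h
    apply not_dvd_of_prime hc hn hp (r := 2) (by norm_num) (by norm_num)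
    simp only [pal]
    rw [hs, hs']
    exact Nat.dvd_add (Nat.dvd_add (Dvd.dvd.mul_left ⟨5 * s', by ring⟩ _)
      (Dvd.dvd.mul_left ⟨5 * s, by ring⟩ _)) h
  have h5 : ¬ 5 ∣ c := by
    intro h
    apply not_dvd_of_prime hc hn hp (r := 5) (by norm_num) (by norm_num)
    simp only [pal]
    rw [hs, hs']
    exact Nat.dvd_add (Nat.dvd_add (Dvd.dvd.mul_left ⟨2 * s', by ring⟩ _)
      (Dvd.dvd.mul_left ⟨2 * s, by ring⟩ _)) h
  have hends : c = 1 ∨ c = 3 ∨ c = 7 ∨ c = 9 := by omega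
  have hcop : Nat.Coprime c d := by
    by_contra hcon
    have hg := Nat.gcd_le_left d hc
    apply not_dvd_of_prime hc hn hp (r := Nat.gcd c d) hcon (by omega)
    exact Nat.dvd_add (Nat.dvd_add ((Nat.gcd_dvd_left c d).mul_right _)
      ((Nat.gcd_dvd_right c d).mul_right _)) (Nat.gcd_dvd_left c d)
  have hsum : ¬ 3 ∣ 2 * c + d := by
    intro h
    apply not_dvd_of_prime hc hn hp (r := 3) (by norm_num) (by norm_num)
    have e1 : ∀ m : ℕ, 10 ^ m % 3 = 1 := by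
      intro m
      rw [Nat.pow_mod]
      norm_num
    obtain ⟨u, hu⟩ : ∃ u, 10 ^ n = 3 * u + 1 := ⟨10 ^ n / 3, by have := e1 n; omega⟩
    obtain ⟨v, hv⟩ : ∃ v, 10 ^ (2 * n) = 3 * v + 1 := ⟨10 ^ (2 * n) / 3, by
      have := e1 (2 * n); omega⟩
    simp only [pal]
    rw [hu, hv]
    obtain ⟨w, hw⟩ := h
    exact ⟨c * v + d * u + w, by linarith⟩
  by_cases h0 : c = 1 ∧ d = 0
  · right
    refine ⟨h0.1, h0.2, ?_⟩
    obtain ⟨rfl, rfl⟩ := h0
    have e : pal 1 0 n = 100 ^ n + 1 := by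
      simp only [pal]
      rw [pow_mul]
      norm_num
    rw [e] at hp
    exact Nat.pow_of_pow_add_prime (by norm_num) (by omega) hp
  left
  refine ⟨hends, hd, hcop, hsum, h0, ?_, ?_, ?_⟩
  · rintro ⟨rfl, rfl⟩
    have e : pal 1 2 n = (10 ^ n + 1) * (10 ^ n + 1) := by
      simp only [pal]
      rw [mul_comm 2 n, pow_mul]
      ring
    rw [e] at hp
    have h1 : 1 ≤ 10 ^ n := Nat.one_le_pow _ _ (by norm_num)
    exact Nat.not_prime_mul (by omega) (by omega) hp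
  · rintro ⟨rfl, rfl, j, hj⟩
    obtain ⟨S, hS⟩ : ∃ S, S = 10 ^ j := ⟨_, rfl⟩
    have hS1 : 1 ≤ S := by rw [hS]; exact Nat.one_le_pow _ _ (by norm_num)
    obtain ⟨A, hA⟩ : ∃ A, A + 10 * S = 30 * S * S + 3 := ⟨30 * S * S + 3 - 10 * S, by
      have : 10 * S ≤ 30 * S * S + 3 := by nlinarith
      omega⟩
    have hA1 : 2 ≤ A := by nlinarith
    have e : pal 9 8 n = A * (A + 20 * S) := by
      simp only [pal]
      have e1 : 10 ^ n = 10 * (S * S) := by
        rw [hj, hS, ← pow_add, ← pow_succ']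
        congr 1
        ring
      rw [mul_comm 2 n, pow_mul, e1]
      zify at hA ⊢
      have hA' : (A : ℤ) = 30 * S * S + 3 - 10 * S := by linarith
      rw [hA']
      ring
    rw [e] at hp
    exact Nat.not_prime_mul (by omega) (by omega) hp
  · rintro ⟨rfl, rfl, j, hj⟩
    obtain ⟨S, hS⟩ : ∃ S, S = 10 ^ j := ⟨_, rfl⟩
    have hS1 : 10 ≤ S := by
      rw [hS]
      calc 10 = 10 ^ 1 := (pow_one _).symm
        _ ≤ 10 ^ j := Nat.pow_le_pow_right (by norm_num) (by omega)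
    obtain ⟨A, hA⟩ : ∃ A, A + 4 * S = 3 * S * S + 3 := ⟨3 * S * S + 3 - 4 * S, by
      have : 4 * S ≤ 3 * S * S + 3 := by nlinarith
      omega⟩
    have hA1 : 2 ≤ A := by nlinarith
    have e : pal 9 2 n = A * (A + 8 * S) := by
      simp only [pal]
      have e1 : 10 ^ n = S * S := by
        rw [hj, hS, ← pow_add]
      rw [mul_comm 2 n, pow_mul, e1]
      zify at hA ⊢
      have hA' : (A : ℤ) = 3 * S * S + 3 - 4 * S := by linarith
      rw [hA']
      ring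
    rw [e] at hp
    exact Nat.not_prime_mul (by omega) (by omega) hp

/-! ### The properties of the admissible triples -/

theorem props {c d n : ℕ} (h : Admissible c d n) :
    ¬ IsSquare ((d : ℤ) ^ 2 - 4 * (c : ℤ) ^ 2) ∧
    (Even n → ¬ IsSquare ((c : ℤ) * (2 * c - d))) ∧
    (Odd n → ¬ IsSquare (10 * ((c : ℤ) * (2 * c - d)))) ∧
    (¬ IsSquare ((c : ℤ) * (2 * c + d)) ∨ (c = 9 ∧ d = 7)) ∧ (c = 1 → 3 ≤ d) ∧
    Nat.Coprime c 10 := by
  obtain ⟨h1, h2, h3, h4, h5, h6, h7, h8⟩ := h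
  rcases h1 with rfl | rfl | rfl | rfl <;> interval_cases d <;>
    first
    | exact absurd h3 (by decide)
    | exact absurd (by decide) h4
    | exact absurd (by decide) h5
    | exact absurd (by decide) h6
    | (refine ⟨by norm_num, fun _ => by norm_num, fun ho => absurd ⟨rfl, rfl, ho⟩ h7,
        Or.inl (by norm_num), by decide, by decide⟩)
    | (refine ⟨by norm_num, fun he => absurd ⟨rfl, rfl, he⟩ h8, fun _ => by norm_num,
        Or.inl (by norm_num), by decide, by decide⟩)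
    | (refine ⟨by norm_num, fun _ => by norm_num, fun _ => by norm_num, Or.inr ⟨rfl, rfl⟩,
        by decide, by decide⟩)
    | (refine ⟨by norm_num, fun _ => by norm_num, fun _ => by norm_num, Or.inl (by norm_num),
        by decide, by decide⟩)

theorem isSquare_of_rat {z : ℤ} {r : ℚ} (h : r ^ 2 = z) : IsSquare z := by
  rw [← Rat.isSquare_intCast_iff]
  exact ⟨r, by rw [← h]; ring⟩

theorem noRoot {c d n : ℕ} (h : Admissible c d n) : NoRoot (c : ℤ) (d : ℤ) := by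
  intro r hr
  apply (props h).1
  apply isSquare_of_rat (r := 2 * r + d)
  push_cast at hr ⊢
  linear_combination 4 * hr

theorem cond_two {c d n : ℕ} (h : Admissible c d n) (t : ℚ) :
    ((c : ℤ) : ℚ) * t ^ 2 ≠ ((10 : ℤ) : ℚ) ^ n * (2 * ((c : ℤ) : ℚ) - ((d : ℤ) : ℚ)) := by
  intro ht
  obtain ⟨-, he, ho, -, -, -⟩ := props h
  have h10 : ∀ j : ℕ, ((10 : ℚ)) ^ j ≠ 0 := fun j => pow_ne_zero _ (by norm_num)
  rcases Nat.even_or_odd n with hn | hn
  · apply he hn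
    obtain ⟨j, rfl⟩ := hn
    apply isSquare_of_rat (r := c * t / 10 ^ j)
    have hj := h10 j
    rw [div_pow, div_eq_iff (pow_ne_zero _ hj)]
    push_cast at ht ⊢
    rw [pow_add] at ht
    linear_combination (c : ℚ) * ht
  · apply ho hn
    obtain ⟨j, rfl⟩ := hn
    apply isSquare_of_rat (r := c * t / 10 ^ j)
    have hj := h10 j
    rw [div_pow, div_eq_iff (pow_ne_zero _ hj)]
    push_cast at ht ⊢
    rw [pow_add, two_mul, pow_add] at ht
    linear_combination (c : ℚ) * ht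

theorem val_ten (n : ℕ) : padicValRat 3 ((10 : ℚ) ^ n) = 0 := by
  rw [padicValRat.pow]
  have h8 : padicValNat 3 10 = 0 := padicValNat.eq_zero_of_not_dvd (by norm_num)
  have h9 := padicValRat.of_nat (p := 3) (n := 10)
  rw [h8] at h9
  have : padicValRat 3 (10 : ℚ) = 0 := by exact_mod_cast h9
  rw [this, mul_zero]

theorem val_int {m : ℕ} (hm : ¬ 3 ∣ m) : padicValRat 3 (m : ℚ) = 0 := by
  have h8 : padicValNat 3 m = 0 := padicValNat.eq_zero_of_not_dvd hm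
  have h9 := padicValRat.of_nat (p := 3) (n := m)
  rw [h8] at h9
  exact_mod_cast h9

theorem cond_four {c d n : ℕ} (h : Admissible c d n) (r t : ℚ)
    (hr : 4 * r ^ 2 = ((10 : ℤ) : ℚ) ^ n) :
    ((c : ℤ) : ℚ) * (t ^ 2 - 2 * r) ^ 2 ≠ (2 * ((c : ℤ) : ℚ) + ((d : ℤ) : ℚ)) * r ^ 2 := by
  intro ht
  obtain ⟨-, -, -, h4, -, -⟩ := props h
  have hr0 : r ≠ 0 := by
    rintro rfl
    have h1 : ((10 : ℤ) : ℚ) ^ n ≠ 0 := pow_ne_zero _ (by norm_num)
    apply h1
    rw [← hr]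
    ring
  rcases h4 with h4 | ⟨rfl, rfl⟩
  · apply h4
    apply isSquare_of_rat (r := c * (t ^ 2 - 2 * r) / r)
    rw [div_pow, div_eq_iff (pow_ne_zero _ hr0)]
    push_cast at ht ⊢
    linear_combination (c : ℚ) * ht
  · push_cast at hr ht
    have h5 : (3 * t ^ 2 - 11 * r) * (3 * t ^ 2 - r) = 0 := by linear_combination ht
    have hv : padicValRat 3 r = 0 := by
      have h6 : padicValRat 3 ((2 * r) ^ 2) = 0 := by
        have : (2 * r) ^ 2 = (10 : ℚ) ^ n := by linarith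
        rw [this, val_ten]
      rw [padicValRat.pow, padicValRat.mul (by norm_num) hr0] at h6
      have h7 : padicValRat 3 ((2 : ℕ) : ℚ) = 0 := val_int (by norm_num)
      rw [Nat.cast_ofNat] at h7
      rw [h7] at h6
      omega
    have ht0 : t ≠ 0 := by
      rintro rfl
      rcases mul_eq_zero.1 h5 with h6 | h6 <;> · apply hr0; linarith
    have hv3 : padicValRat 3 (3 * t ^ 2) = 1 + 2 * padicValRat 3 t := by
      rw [padicValRat.mul (by norm_num) (pow_ne_zero _ ht0), padicValRat.pow]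
      have : padicValRat 3 ((3 : ℕ) : ℚ) = 1 := padicValRat.self (by norm_num)
      rw [Nat.cast_ofNat] at this
      rw [this]
      push_cast
      ring
    rcases mul_eq_zero.1 h5 with h6 | h6
    · have h7 : 3 * t ^ 2 = ((11 : ℕ) : ℚ) * r := by push_cast; linarith
      rw [h7, padicValRat.mul (by norm_num) hr0, val_int (by norm_num), hv] at hv3
      omega
    · have h7 : 3 * t ^ 2 = r := by linarith
      rw [h7, hv] at hv3
      omega

/-! ### Euclid's lemma -/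

/-- the numbers of terms -/
def kk (k₁ k₂ : ℕ) : Fin 2 → ℕ
  | 0 => k₁
  | 1 => k₂

/-- the coefficients -/
def xx {k₁ k₂ : ℕ} (c : ℤ) (a₁ : Fin k₁ → ℤ) (a₂ : Fin k₂ → ℤ) : ∀ t, Fin (kk k₁ k₂ t) → ℤ
  | 0 => fun i => c * a₁ i
  | 1 => a₂

/-- the exponents -/
def aa {k₁ k₂ : ℕ} (α₁ : Fin k₁ → ℕ) (α₂ : Fin k₂ → ℕ) : ∀ t, Fin (kk k₁ k₂ t) → ℕ
  | 0 => α₁
  | 1 => α₂

theorem part1 {c d n k₁ k₂ l : ℕ} (h : Admissible c d n) (a₁ : Fin k₁ → ℤ) (α₁ : Fin k₁ → ℕ)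
    (a₂ : Fin k₂ → ℤ) (α₂ : Fin k₂ → ℕ) (q : Fin l → ℤ) (β : Fin l → ℕ)
    (hbig : (k₁ + k₂ + 2 * l + 1) * 2 ^ (k₁ + k₂ + 2 * l) *
      Nat.log 10 (9 * (∑ i, (a₁ i).natAbs) * (∑ i, (a₂ i).natAbs) + 243 * ∑ j, (q j).natAbs) < n)
    (heq : value a₁ α₁ * value a₂ α₂ = value q β * (pal c d n : ℤ)) :
    (pal c d n : ℤ) ∣ value a₁ α₁ ∨ (pal c d n : ℤ) ∣ value a₂ α₂ := by
  obtain ⟨-, -, -, -, hc1, hc10⟩ := props h
  have hfact : Fact (NoRoot (c : ℤ) (d : ℤ)) := ⟨noRoot h⟩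
  have hc9 : 1 ≤ c ∧ c ≤ 9 := by rcases h.ends with h | h | h | h <;> omega
  have hd9 := h.middle
  have hcZ : (0 : ℤ) < c := by exact_mod_cast hc9.1
  have hdZ : (0 : ℤ) ≤ d := Int.natCast_nonneg _
  have hcd : IsCoprime (c : ℤ) (d : ℤ) := Nat.isCoprime_iff_coprime.2 h.coprime
  have hcb : IsCoprime (c : ℤ) 10 := by
    have := Nat.isCoprime_iff_coprime.2 hc10
    exact_mod_cast this
  have hpal : (pal c d n : ℤ) = c * 10 ^ (2 * n) + d * 10 ^ n + c := by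
    simp only [pal]; push_cast; rfl
  have hsum : ∑ t, kk k₁ k₂ t + (l + l) = k₁ + k₂ + 2 * l := by
    rw [Fin.sum_univ_two]; simp only [kk]; ring
  obtain ⟨t, ht⟩ := palin_aux (b := 10) (c := c) (d := d) (by norm_num) hcZ hdZ hcd hcb (n := n)
    (kk k₁ k₂) (xx c a₁ a₂) (aa α₁ α₂) q β
    (by
      rw [Fin.prod_univ_two]
      have e0 : ∑ i, xx (c : ℤ) a₁ a₂ 0 i * 10 ^ aa α₁ α₂ 0 i = c * value a₁ α₁ := by
        rw [value, Finset.mul_sum]
        exact Finset.sum_congr rfl (fun i _ => by simp only [xx, aa]; ring)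
      have e1 : ∑ i, xx (c : ℤ) a₁ a₂ 1 i * 10 ^ aa α₁ α₂ 1 i = value a₂ α₂ := rfl
      rw [e0, e1]
      have e2 : ∑ j, q j * 10 ^ β j = value q β := rfl
      rw [e2, ← hpal]
      linear_combination (c : ℤ) * heq)
    (Nat.log 10 (9 * (∑ i, (a₁ i).natAbs) * (∑ i, (a₂ i).natAbs) + 243 * ∑ j, (q j).natAbs))
    (by
      rw [Fin.prod_univ_two]
      have e0 : ∑ i, |xx (c : ℤ) a₁ a₂ 0 i| = c * ∑ i, |a₁ i| := by
        rw [Finset.mul_sum]
        exact Finset.sum_congr rfl (fun i _ => by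
          simp only [xx]; rw [abs_mul, abs_of_pos hcZ])
      have e1 : ∑ i, |xx (c : ℤ) a₁ a₂ 1 i| = ∑ i, |a₂ i| := rfl
      rw [e0, e1]
      have h1 := Nat.lt_pow_succ_log_self (b := 10) (by norm_num)
        (9 * (∑ i, (a₁ i).natAbs) * (∑ i, (a₂ i).natAbs) + 243 * ∑ j, (q j).natAbs)
      have h2 := Int.ofNat_lt.2 h1
      push_cast at h2
      refine lt_of_le_of_lt ?_ h2
      have n1 : 0 ≤ ∑ i, |a₁ i| := Finset.sum_nonneg (fun i _ => abs_nonneg _)
      have n2 : 0 ≤ ∑ i, |a₂ i| := Finset.sum_nonneg (fun i _ => abs_nonneg _)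
      have n3 : 0 ≤ ∑ j, |q j| := Finset.sum_nonneg (fun i _ => abs_nonneg _)
      have hc9Z : (c : ℤ) ≤ 9 := by exact_mod_cast hc9.2
      have hd9Z : (d : ℤ) ≤ 9 := by exact_mod_cast hd9
      apply add_le_add
      · rw [mul_assoc, mul_assoc]
        exact mul_le_mul_of_nonneg_right hc9Z (mul_nonneg n1 n2)
      · apply mul_le_mul_of_nonneg_right _ n3
        nlinarith)
    (by rw [hsum]; exact hbig)
    (by
      intro Y hY _
      refine irr_ten hcZ hdZ hcd ?_ ?_ hY (cond_two h) (cond_four h)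
      · intro p hp hdvd
        have h3 : p ^ 3 ∣ c := by exact_mod_cast hdvd
        have h4 := Nat.le_of_dvd (by omega) h3
        have h5 := hp.two_le
        have h6 : p = 2 := by
          by_contra hcon
          have h7 : 3 ≤ p := by omega
          have h8 : 3 ^ 3 ≤ p ^ 3 := Nat.pow_le_pow_left h7 3
          omega
        rw [h6] at h3
        rcases h.ends with h | h | h | h <;> rw [h] at h3 <;> revert h3 <;> decide
      · intro hc
        have hc' : c = 1 := by exact_mod_cast hc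
        have := hc1 hc'
        constructor <;> omega)
  match t, ht with
  | 0, ht =>
    left
    have e0 : ∑ i, xx (c : ℤ) a₁ a₂ 0 i * 10 ^ aa α₁ α₂ 0 i = c * value a₁ α₁ := by
      rw [value, Finset.mul_sum]
      exact Finset.sum_congr rfl (fun i _ => by simp only [xx, aa]; ring)
    rw [e0, ← hpal] at ht
    have hcop : IsCoprime (pal c d n : ℤ) (c : ℤ) := by
      have h1 : IsCoprime (d * 10 ^ n : ℤ) (c : ℤ) := (hcd.mul_right hcb.pow_right).symm
      have h2 := h1.add_mul_left_left (10 ^ (2 * n) + 1)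
      have e : (pal c d n : ℤ) = d * 10 ^ n + c * (10 ^ (2 * n) + 1) := by rw [hpal]; ring
      rw [e]
      exact h2
    exact hcop.dvd_of_dvd_mul_left ht
  | 1, ht =>
    right
    rw [hpal]
    exact ht

/-! ### Sparse factorizations -/

theorem log_bound {k₁ k₂ : ℕ} (h : 2 ≤ k₁ + k₂) :
    Nat.log 10 (9 * k₁ * k₂ + 243) ≤ k₁ + k₂ := by
  have h1 : 4 * (k₁ * k₂) ≤ (k₁ + k₂) ^ 2 := by nlinarith [sq_nonneg ((k₁ : ℤ) - k₂)]
  have hpow : ∀ k : ℕ, 2 ≤ k → 9 * k ^ 2 + 972 < 4 * 10 ^ (k + 1) := by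
    intro k hk
    induction k, hk using Nat.le_induction with
    | base => norm_num
    | succ k hk ih =>
      have e : 10 ^ (k + 1 + 1) = 10 * 10 ^ (k + 1) := by ring
      rw [e]
      nlinarith
  have h2 := hpow (k₁ + k₂) h
  have h3 : Nat.log 10 (9 * k₁ * k₂ + 243) < k₁ + k₂ + 1 := by
    apply Nat.log_lt_of_lt_pow' (by omega)
    have : 4 * (9 * k₁ * k₂ + 243) ≤ 9 * (k₁ + k₂) ^ 2 + 972 := by nlinarith
    omega
  omega

theorem part2 {c d n k₁ k₂ : ℕ} (h : Admissible c d n)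
    (hbig : (k₁ + k₂ + 3) ^ 2 * 2 ^ (k₁ + k₂ + 2) ≤ n) {x y : ℤ}
    (hx : Sparse k₁ x) (hy : Sparse k₂ y) (hxy : x * y = (pal c d n : ℤ)) :
    (x = 1 ∨ x = -1) ∨ (y = 1 ∨ y = -1) := by
  have hc9 : 1 ≤ c ∧ c ≤ 9 := by rcases h.ends with h | h | h | h <;> omega
  have hN0 : (pal c d n : ℤ) ≠ 0 := by
    have : 0 < pal c d n := by simp only [pal]; omega
    omega
  obtain ⟨a₁, α₁, ha₁, hx⟩ := hx
  obtain ⟨a₂, α₂, ha₂, hy⟩ := hy
  have hk1 : k₁ ≠ 0 := by
    rintro rfl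
    apply hN0
    rw [← hxy, hx]
    simp [value]
  have hk2 : k₂ ≠ 0 := by
    rintro rfl
    apply hN0
    rw [← hxy, hy]
    simp [value]
  have habs : ∀ {m : ℕ} (e : Fin m → ℤ), (∀ i, e i = 1 ∨ e i = -1) →
      ∑ i, (e i).natAbs = m := by
    intro m e he
    have : ∀ i, (e i).natAbs = 1 := by
      intro i
      rcases he i with h | h <;> rw [h] <;> rfl
    simp [this]
  have hlog := log_bound (k₁ := k₁) (k₂ := k₂) (by omega)
  have hval : value (fun _ : Fin 1 => (1 : ℤ)) (fun _ => 0) = 1 := by simp [value]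
  have key := part1 h a₁ α₁ a₂ α₂ (fun _ : Fin 1 => (1 : ℤ)) (fun _ => 0)
    (by
      rw [habs a₁ ha₁, habs a₂ ha₂, habs (fun _ : Fin 1 => (1 : ℤ)) (fun _ => Or.inl rfl),
        mul_one, mul_one]
      generalize hk : k₁ + k₂ = k at *
      calc (k + 2 + 1) * 2 ^ (k + 2) * Nat.log 10 (9 * k₁ * k₂ + 243)
          ≤ (k + 2 + 1) * 2 ^ (k + 2) * k := Nat.mul_le_mul_left _ hlog
        _ < (k + 3) ^ 2 * 2 ^ (k + 2) := by
            have h1 : 0 < 2 ^ (k + 2) := by positivity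
            have h2 : (k + 2 + 1) * k < (k + 3) ^ 2 := by nlinarith
            nlinarith [Nat.mul_lt_mul_of_pos_right h2 h1]
        _ ≤ n := hbig)
    (by rw [hval, one_mul, ← hx, ← hy, hxy])
  rw [← hx, ← hy] at key
  have hunit : ∀ u v : ℤ, u * v = (pal c d n : ℤ) → (pal c d n : ℤ) ∣ u → v = 1 ∨ v = -1 := by
    intro u v huv hd
    obtain ⟨w, hw⟩ := hd
    have h1 : (pal c d n : ℤ) * (w * v) = (pal c d n : ℤ) * 1 := by
      rw [← mul_assoc, ← hw, huv, mul_one]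
    have h2 := mul_left_cancel₀ hN0 h1
    exact Int.isUnit_iff.1 (IsUnit.of_mul_eq_one w (by rw [mul_comm]; exact h2))
  rcases key with h1 | h1
  · exact Or.inr (hunit x y hxy h1)
  · exact Or.inl (hunit y x (by rw [mul_comm]; exact hxy) h1)

/-- **Palindromes with three nonzero digits.** (0) Prime palindromes `c 0 ... 0 d 0 ... 0 c` are
admissible or have the form `1 0 ... 0 1` with `n` a power of `2`.  (1) If an admissible palindrome
divides the product of two integers with few windows of decimal digits, with a sparse quotient, then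
it divides one of them.  (2) Every nontrivial factorization of an admissible palindrome with
`2 n + 1` digits has at least about `log_2 n` terms `± 10 ^ α` in its two factors. -/
theorem result :
    (∀ c d n : ℕ, 1 ≤ c → c ≤ 9 → d ≤ 9 → 1 ≤ n → (pal c d n).Prime →
      Admissible c d n ∨ (c = 1 ∧ d = 0 ∧ ∃ m, n = 2 ^ m)) ∧
    (∀ (c d n k₁ k₂ l : ℕ), Admissible c d n → ∀ (a₁ : Fin k₁ → ℤ) (α₁ : Fin k₁ → ℕ)
      (a₂ : Fin k₂ → ℤ) (α₂ : Fin k₂ → ℕ) (q : Fin l → ℤ) (β : Fin l → ℕ),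
      (k₁ + k₂ + 2 * l + 1) * 2 ^ (k₁ + k₂ + 2 * l) *
        Nat.log 10 (9 * (∑ i, (a₁ i).natAbs) * (∑ i, (a₂ i).natAbs) +
          243 * ∑ j, (q j).natAbs) < n →
      value a₁ α₁ * value a₂ α₂ = value q β * (pal c d n : ℤ) →
      (pal c d n : ℤ) ∣ value a₁ α₁ ∨ (pal c d n : ℤ) ∣ value a₂ α₂) ∧
    (∀ (c d n k₁ k₂ : ℕ) (x y : ℤ), Admissible c d n →
      (k₁ + k₂ + 3) ^ 2 * 2 ^ (k₁ + k₂ + 2) ≤ n → Sparse k₁ x → Sparse k₂ y →
      x * y = (pal c d n : ℤ) → (x = 1 ∨ x = -1) ∨ (y = 1 ∨ y = -1)) :=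
  ⟨fun _ _ _ hc hc9 hd hn hp => prime_cases hc hc9 hd hn hp,
    fun _ _ _ _ _ _ h a₁ α₁ a₂ α₂ q β hbig heq => part1 h a₁ α₁ a₂ α₂ q β hbig heq,
    fun _ _ _ _ _ _ _ h hbig hx hy hxy => part2 h hbig hx hy hxy⟩

end Pool.Agent.Results.MP_540de1_nt.ThreeDigitPalindromes
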